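import Pool.Agent.H63.Quad.Defs

set_option autoImplicit false

/-!
# Module B4: free steps

The generic recurrence `U w`, its compatibility with algebra homomorphisms, the decomposition of
the polynomials `Qp` and the exponential moment bound.
-/

namespace Pool.Agent.H36.Quad

open Finset Filter Topology Polynomial Pool.Agent.H63.Quad

section generic

variable {R : Type*} [CommRing R] [Algebra ℝ R]

/-- the generic sequence with weights `w` -/
noncomputable def U (w : ℕ → R) : ℕ → R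
  | 0 => 1
  | 1 => 2
  | m + 2 => (1 / ((m : ℝ) + 3)) • ((4 * (2 * (m : ℝ) + 3)) • U w (m + 1)
      + (2 * (m : ℝ) + 1) • (w m * U w m)
      + (3 : ℝ) • ∑ i : Fin (m + 1), if 1 ≤ (i : ℕ) ∧ (i : ℕ) < m then
          ((2 * ((i : ℕ) : ℝ) + 1) * (2 * ((m - i : ℕ) : ℝ) + 1)) • (U w i * U w (m - i)) else 0)

theorem U_zero (w : ℕ → R) : U w 0 = 1 := by rw [U]
theorem U_one (w : ℕ → R) : U w 1 = 2 := by rw [U]

theorem U_rec (w : ℕ → R) (m : ℕ) : U w (m + 2) = (1 / ((m : ℝ) + 3)) •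
    ((4 * (2 * (m : ℝ) + 3)) • U w (m + 1) + (2 * (m : ℝ) + 1) • (w m * U w m)
      + (3 : ℝ) • ∑ i ∈ range (m + 1), if 1 ≤ i ∧ i < m then
          ((2 * (i : ℝ) + 1) * (2 * ((m - i : ℕ) : ℝ) + 1)) • (U w i * U w (m - i)) else 0) := by
  rw [U, Finset.sum_range (fun i => if 1 ≤ i ∧ i < m then
          ((2 * (i : ℝ) + 1) * (2 * ((m - i : ℕ) : ℝ) + 1)) • (U w i * U w (m - i)) else 0)]

/-- a general induction principle -/
theorem U_ind (w : ℕ → R) (P : ℕ → R → Prop) (h0 : P 0 1) (h1 : P 1 2)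
    (hs : ∀ m, (∀ i, i < m + 2 → P i (U w i)) → P (m + 2) (U w (m + 2))) (n : ℕ) :
    P n (U w n) := by
  induction n using Nat.strong_induction_on with
  | _ n ih =>
    match n, ih with
    | 0, _ => rw [U_zero]; exact h0
    | 1, _ => rw [U_one]; exact h1
    | m + 2, ih => exact hs m ih

variable {S : Type*} [CommRing S] [Algebra ℝ S]

theorem map_U (f : R →ₐ[ℝ] S) (w : ℕ → R) (n : ℕ) : f (U w n) = U (fun m => f (w m)) n := by
  refine U_ind w (fun n u => f u = U (fun m => f (w m)) n) ?_ ?_ (fun m ih => ?_) n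
  · rw [U_zero, map_one]
  · rw [U_one, map_ofNat]
  · rw [U_rec, U_rec]
    simp only [map_smul, map_add, map_mul, map_sum]
    rw [ih (m + 1) (by omega), ih m (by omega)]
    congr 3
    refine Finset.sum_congr rfl fun i hi => ?_
    have hi' := Finset.mem_range.1 hi
    split_ifs with h
    · rw [map_smul, map_mul, ih i (by omega), ih (m - i) (by omega)]
    · exact map_zero f

theorem U_congr {w w' : ℕ → R} {n : ℕ} (h : ∀ m, m + 2 ≤ n → w m = w' m) : U w n = U w' n := by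
  refine (U_ind w (fun k u => k ≤ n → u = U w' k) (fun _ => (U_zero _).symm)
    (fun _ => (U_one _).symm) (fun m ih hm => ?_) n) le_rfl
  rw [U_rec, U_rec, ih (m + 1) (by omega) (by omega), ih m (by omega) (by omega), h m hm]
  congr 3
  refine Finset.sum_congr rfl fun i hi => ?_
  have hi' := Finset.mem_range.1 hi
  split_ifs with h
  · rw [ih i (by omega) (by omega), ih (m - i) (by omega) (by omega)]
  · rfl

end generic

/-! ### the weights of `Qp` -/

/-- the weights giving `Qp` -/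
noncomputable def wX (m : ℕ) : ℝ[X] :=
  if m = 0 then C 3 + C 3 * X else C 6 + C (((m : ℝ) + 1) * (2 * m + 3)) * X

theorem sum_split {M : Type*} [AddCommMonoid M] (m : ℕ) (hm : 1 ≤ m) (t : ℕ → M) :
    ∑ i ∈ range (m + 1), t i
      = (∑ i ∈ range (m + 1), if 1 ≤ i ∧ i < m then t i else 0) + t 0 + t m := by
  rw [Finset.sum_range_succ, Finset.sum_range_succ (fun i => if 1 ≤ i ∧ i < m then t i else 0),
    if_neg (by omega : ¬ (1 ≤ m ∧ m < m)), add_zero]
  congr 1
  obtain ⟨k, rfl⟩ := Nat.exists_eq_add_of_le' hm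
  rw [Finset.sum_range_succ', Finset.sum_range_succ' (fun i => if 1 ≤ i ∧ i < k + 1 then t i else 0),
    if_neg (by omega : ¬ (1 ≤ 0 ∧ 0 < k + 1)), add_zero]
  congr 1
  refine Finset.sum_congr rfl fun i hi => ?_
  have hi' := Finset.mem_range.1 hi
  rw [if_pos (by omega)]

theorem Qp_eq_U (n : ℕ) : Qp n = U wX n := by
  symm
  refine U_ind wX (fun n u => u = Qp n) ?_ ?_ (fun m ih => ?_) n
  · simp [Qp]
  · simp [Qp]
  · rw [U_rec, Qp, ih (m + 1) (by omega), ih m (by omega)]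
    rw [Polynomial.smul_eq_C_mul]
    congr 1
    have hsum : ∑ i : Fin (m + 1), C ((2 * ((i : ℕ) : ℝ) + 1) * (2 * ((m - i : ℕ) : ℝ) + 1))
            * Qp i * Qp (m - i)
        = ∑ i ∈ range (m + 1), C ((2 * (i : ℝ) + 1) * (2 * ((m - i : ℕ) : ℝ) + 1))
            * Qp i * Qp (m - i) := (Finset.sum_range (fun i => C ((2 * (i : ℝ) + 1)
              * (2 * ((m - i : ℕ) : ℝ) + 1)) * Qp i * Qp (m - i))).symm
    rw [hsum]
    have hsum2 : (∑ i ∈ range (m + 1), if 1 ≤ i ∧ i < m then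
          ((2 * (i : ℝ) + 1) * (2 * ((m - i : ℕ) : ℝ) + 1)) • (U wX i * U wX (m - i)) else 0)
        = ∑ i ∈ range (m + 1), if 1 ≤ i ∧ i < m then
          C ((2 * (i : ℝ) + 1) * (2 * ((m - i : ℕ) : ℝ) + 1)) * Qp i * Qp (m - i) else 0 := by
      refine Finset.sum_congr rfl fun i hi => ?_
      have hi' := Finset.mem_range.1 hi
      split_ifs with h
      · rw [ih i (by omega), ih (m - i) (by omega), Polynomial.smul_eq_C_mul, mul_assoc]
      · rfl
    rw [hsum2]
    have h3 : (3 : ℝ[X]) = C 3 := (map_ofNat C 3).symm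
    rcases Nat.eq_zero_or_pos m with hm | hm
    · subst hm
      simp only [zero_add, Finset.sum_range_one]
      rw [if_neg (by omega : ¬ (1 ≤ 0 ∧ 0 < 0)), smul_zero, add_zero,
        Polynomial.smul_eq_C_mul, Polynomial.smul_eq_C_mul, wX, if_pos rfl, ← h3]
      simp only [Nat.cast_zero, mul_zero, zero_add, Nat.sub_zero, mul_one, one_mul, C_1]
      rw [← h3]
      simp only [Qp]
      ring
    · rw [sum_split m hm (fun i => C ((2 * (i : ℝ) + 1) * (2 * ((m - i : ℕ) : ℝ) + 1))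
            * Qp i * Qp (m - i))]
      rw [Polynomial.smul_eq_C_mul, Polynomial.smul_eq_C_mul, Polynomial.smul_eq_C_mul, h3]
      rw [mul_add (C 3), mul_add (C 3)]
      have e1 : C ((2 * ((0 : ℕ) : ℝ) + 1) * (2 * ((m - 0 : ℕ) : ℝ) + 1)) * Qp 0 * Qp (m - 0)
          = C (2 * (m : ℝ) + 1) * Qp m := by
        simp [Qp]
      have e2 : C ((2 * (m : ℝ) + 1) * (2 * ((m - m : ℕ) : ℝ) + 1)) * Qp m * Qp (m - m)
          = C (2 * (m : ℝ) + 1) * Qp m := by
        simp [Qp]
      rw [e1, e2]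
      have e3 : C (2 * (m : ℝ) + 1) * (wX m * Qp m)
          = C ((2 * (m : ℝ) + 1) * (m + 1) * (2 * m + 3)) * X * Qp m
            + (C 3 * (C (2 * (m : ℝ) + 1) * Qp m) + C 3 * (C (2 * (m : ℝ) + 1) * Qp m)) := by
        rw [wX, if_neg (by omega), ← h3]
        simp only [C_mul, C_add]
        have : (C 6 : ℝ[X]) = 6 := map_ofNat C 6
        rw [this]
        ring
      rw [e3]
      ring

/-! ### nonnegative bivariate polynomials -/

/-- nonnegative coefficients, supported in degrees at most `d` -/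
def NN (d : ℕ) (P : ℝ[X][X]) : Prop :=
  ∀ a b, 0 ≤ (P.coeff a).coeff b ∧ ((P.coeff a).coeff b ≠ 0 → a ≤ d ∧ b ≤ d)

theorem NN.mono {d e : ℕ} (h : d ≤ e) {P : ℝ[X][X]} (hP : NN d P) : NN e P := fun a b =>
  ⟨(hP a b).1, fun h0 => ⟨((hP a b).2 h0).1.trans h, ((hP a b).2 h0).2.trans h⟩⟩

theorem NN.add {d : ℕ} {P Q : ℝ[X][X]} (hP : NN d P) (hQ : NN d Q) : NN d (P + Q) := by
  intro a b
  rw [coeff_add, coeff_add]
  refine ⟨add_nonneg (hP a b).1 (hQ a b).1, fun h => ?_⟩
  by_cases h1 : (P.coeff a).coeff b = 0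
  · rw [h1, zero_add] at h
    exact (hQ a b).2 h
  · exact (hP a b).2 h1

theorem nn_zero (d : ℕ) : NN d 0 := fun a b => by simp

theorem NN.sum {d : ℕ} {ι : Type*} (s : Finset ι) (P : ι → ℝ[X][X]) (h : ∀ i ∈ s, NN d (P i)) :
    NN d (∑ i ∈ s, P i) := by
  classical
  induction s using Finset.induction_on with
  | empty => simpa using nn_zero d
  | insert i s hi ih =>
      rw [Finset.sum_insert hi]
      exact (h i (Finset.mem_insert_self _ _)).add
        (ih fun j hj => h j (Finset.mem_insert_of_mem hj))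

theorem NN.smul {d : ℕ} {P : ℝ[X][X]} (hP : NN d P) {r : ℝ} (hr : 0 ≤ r) : NN d (r • P) := by
  intro a b
  rw [coeff_smul, coeff_smul, smul_eq_mul]
  exact ⟨mul_nonneg hr (hP a b).1, fun h => (hP a b).2 (right_ne_zero_of_mul h)⟩

theorem NN.mul {d e : ℕ} {P Q : ℝ[X][X]} (hP : NN d P) (hQ : NN e Q) : NN (d + e) (P * Q) := by
  intro a b
  have hc : ((P * Q).coeff a).coeff b = ∑ x ∈ antidiagonal a, ∑ y ∈ antidiagonal b,
      (P.coeff x.1).coeff y.1 * (Q.coeff x.2).coeff y.2 := by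
    rw [coeff_mul, finsetSum_coeff]
    exact Finset.sum_congr rfl fun x _ => coeff_mul _ _ _
  rw [hc]
  refine ⟨Finset.sum_nonneg fun x _ => Finset.sum_nonneg fun y _ =>
    mul_nonneg (hP _ _).1 (hQ _ _).1, fun h => ?_⟩
  obtain ⟨x, hx, hx'⟩ := Finset.exists_ne_zero_of_sum_ne_zero h
  obtain ⟨y, hy, hy'⟩ := Finset.exists_ne_zero_of_sum_ne_zero hx'
  have h1 := (hP x.1 y.1).2 (left_ne_zero_of_mul hy')
  have h2 := (hQ x.2 y.2).2 (right_ne_zero_of_mul hy')
  rw [Finset.HasAntidiagonal.mem_antidiagonal] at hx hy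
  omega

theorem nn_CC {r : ℝ} (hr : 0 ≤ r) : NN 0 (C (C r)) := by
  intro a b
  rw [coeff_C]
  split_ifs with h
  · rw [coeff_C]
    split_ifs with h'
    · exact ⟨hr, fun _ => by omega⟩
    · exact ⟨le_rfl, fun h0 => absurd rfl h0⟩
  · rw [coeff_zero]
    exact ⟨le_rfl, fun h0 => absurd rfl h0⟩

theorem nn_CX : NN 1 (C (X : ℝ[X])) := by
  intro a b
  rw [coeff_C]
  split_ifs with h
  · rw [coeff_X]
    split_ifs with h'
    · exact ⟨zero_le_one, fun _ => by omega⟩
    · exact ⟨le_rfl, fun h0 => absurd rfl h0⟩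
  · rw [coeff_zero]
    exact ⟨le_rfl, fun h0 => absurd rfl h0⟩

theorem nn_X : NN 1 (X : ℝ[X][X]) := by
  intro a b
  rw [coeff_X]
  split_ifs with h
  · rw [coeff_one]
    split_ifs with h'
    · exact ⟨zero_le_one, fun _ => by omega⟩
    · exact ⟨le_rfl, fun h0 => absurd rfl h0⟩
  · rw [coeff_zero]
    exact ⟨le_rfl, fun h0 => absurd rfl h0⟩

theorem nn_U {w : ℕ → ℝ[X][X]} (hw : ∀ m, NN 1 (w m)) (n : ℕ) : NN n (U w n) := by
  refine U_ind w (fun n u => NN n u) ?_ ?_ (fun m ih => ?_) n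
  · have := nn_CC (zero_le_one)
    simpa using this
  · have := (nn_CC (r := 2) (by norm_num)).mono (Nat.zero_le 1)
    have e : (C (C (2 : ℝ)) : ℝ[X][X]) = 2 := by
      rw [map_ofNat, map_ofNat]
    rwa [e] at this
  · rw [U_rec]
    refine NN.smul (NN.add (NN.add ?_ ?_) ?_) (by positivity)
    · exact ((ih (m + 1) (by omega)).mono (by omega)).smul (by positivity)
    · exact (((hw m).mul (ih m (by omega))).mono (by omega)).smul (by positivity)
    · refine NN.smul (NN.sum _ _ fun i hi => ?_) (by norm_num)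
      have hi' := Finset.mem_range.1 hi
      split_ifs with h
      · exact (((ih i (by omega)).mul (ih (m - i) (by omega))).mono (by omega)).smul
          (by positivity)
      · exact nn_zero _

/-- the bivariate weights with threshold `m0` -/
noncomputable def wF (x0 : ℝ) (m0 : ℕ) (m : ℕ) : ℝ[X][X] :=
  if m < m0 then C (wX m)
  else X + C (C (((m : ℝ) + 1) * (2 * m + 3) - x0) * X)

theorem nn_wF {x0 : ℝ} {m0 : ℕ} (hx : x0 ≤ ((m0 : ℝ) + 1) * (2 * m0 + 3)) (m : ℕ) :
    NN 1 (wF x0 m0 m) := by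
  unfold wF
  split_ifs with h
  · unfold wX
    split_ifs with h'
    · rw [C_add, C_mul]
      exact ((nn_CC (by norm_num)).mono (by omega)).add ((nn_CC (by norm_num)).mul nn_CX)
    · rw [C_add, C_mul]
      exact ((nn_CC (by norm_num)).mono (by omega)).add ((nn_CC (by positivity)).mul nn_CX)
  · rw [C_mul]
    refine nn_X.add ((nn_CC ?_).mul nn_CX)
    rw [sub_nonneg]
    have h1 : (m0 : ℝ) ≤ m := by exact_mod_cast not_lt.1 h
    have h0 : (0 : ℝ) ≤ m0 := by positivity
    refine hx.trans ?_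
    nlinarith

/-- the bivariate polynomial -/
noncomputable def BF (x0 : ℝ) (m0 n : ℕ) : ℝ[X][X] := U (wF x0 m0) n

theorem nn_BF {x0 : ℝ} {m0 : ℕ} (hx : x0 ≤ ((m0 : ℝ) + 1) * (2 * m0 + 3)) (n : ℕ) :
    NN n (BF x0 m0 n) := nn_U (nn_wF hx) n

/-- decomposition of `Qp` -/
theorem eval_BF (x0 : ℝ) {m0 : ℕ} (hm0 : 1 ≤ m0) (n : ℕ) :
    (BF x0 m0 n).eval (C 6 + C x0 * X) = Qp n := by
  let f : ℝ[X][X] →ₐ[ℝ] ℝ[X] :=
    (Polynomial.aeval (C 6 + C x0 * X : ℝ[X])).restrictScalars ℝ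
  have hf : ∀ P : ℝ[X][X], f P = P.eval (C 6 + C x0 * X) := fun P => by
    show Polynomial.aeval (C 6 + C x0 * X : ℝ[X]) P = _
    rw [Polynomial.coe_aeval_eq_eval]
  rw [← hf, Qp_eq_U, BF, map_U]
  congr 1
  funext m
  rw [hf]
  unfold wF
  split_ifs with h
  · exact eval_C
  · rw [eval_add, eval_X, eval_C, wX, if_neg (by omega), C_sub]
    ring

/-- the numerical weights -/
noncomputable def wy (x0 : ℝ) (m0 : ℕ) (z y : ℝ) (m : ℕ) : ℝ :=
  if m < m0 then (wX m).eval z
  else y + (((m : ℝ) + 1) * (2 * m + 3) - x0) * z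

theorem eval_eval_BF (x0 : ℝ) (m0 n : ℕ) (z y : ℝ) :
    ((BF x0 m0 n).eval (C y)).eval z = U (wy x0 m0 z y) n := by
  let f : ℝ[X][X] →ₐ[ℝ] ℝ :=
    (Polynomial.aeval z : ℝ[X] →ₐ[ℝ] ℝ).comp ((Polynomial.aeval (C y : ℝ[X])).restrictScalars ℝ)
  have hf : ∀ P : ℝ[X][X], f P = (P.eval (C y)).eval z := fun P => by
    show Polynomial.aeval z (Polynomial.aeval (C y : ℝ[X]) P) = _
    rw [Polynomial.coe_aeval_eq_eval, Polynomial.coe_aeval_eq_eval]
  rw [← hf, BF, map_U]
  congr 1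
  funext m
  rw [hf]
  unfold wF wy
  split_ifs with h
  · rw [eval_C]
  · rw [eval_add, eval_X, eval_C, eval_add, eval_C, eval_mul, eval_C, eval_X]

theorem eval_Qp_eq_U (z : ℝ) (n : ℕ) : (Qp n).eval z = U (fun m => (wX m).eval z) n := by
  rw [Qp_eq_U, ← Polynomial.coe_aeval_eq_eval, map_U]

/-! ### the exponential moment -/

theorem one_add_pow_sub_one_le {lam : ℝ} (hl : 0 ≤ lam) (t : ℕ) :
    (1 + lam) ^ t ≤ 1 + lam * t * (1 + lam) ^ t := by
  induction t with
  | zero => simp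
  | succ t ih =>
      have h1 : (1 : ℝ) ≤ (1 + lam) ^ t := one_le_pow₀ (by linarith)
      have h2 : (0 : ℝ) ≤ t := by positivity
      push_cast
      rw [pow_succ]
      nlinarith [mul_nonneg hl h2, mul_nonneg (mul_nonneg hl h2) (by linarith : (0:ℝ) ≤ (1 + lam) ^ t),
        mul_nonneg hl (by linarith : (0:ℝ) ≤ (1 + lam) ^ t - 1), mul_nonneg hl hl,
        mul_nonneg (mul_nonneg (mul_nonneg hl h2) hl) (by linarith : (0:ℝ) ≤ (1 + lam) ^ t)]

theorem U_real_rec (w : ℕ → ℝ) (m : ℕ) : ((m : ℝ) + 3) * U w (m + 2) =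
    4 * (2 * (m : ℝ) + 3) * U w (m + 1) + (2 * (m : ℝ) + 1) * (w m * U w m)
      + 3 * ∑ i ∈ range (m + 1), if 1 ≤ i ∧ i < m then
          ((2 * (i : ℝ) + 1) * (2 * ((m - i : ℕ) : ℝ) + 1)) * (U w i * U w (m - i)) else 0 := by
  rw [U_rec]
  simp only [smul_eq_mul]
  have : (m : ℝ) + 3 ≠ 0 := by positivity
  field_simp

theorem U_nonneg {w : ℕ → ℝ} (hw : ∀ m, 0 ≤ w m) (n : ℕ) : 0 ≤ U w n := by
  refine U_ind w (fun _ u => 0 ≤ u) zero_le_one zero_le_two (fun m ih => ?_) n
  have h := U_real_rec w m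
  have h3 : 0 ≤ ((m : ℝ) + 3) * U w (m + 2) := by
    rw [h]
    have h1 := ih (m + 1) (by omega)
    have h2 := ih m (by omega)
    have h4 := hw m
    have h5 : 0 ≤ ∑ i ∈ range (m + 1), if 1 ≤ i ∧ i < m then
          ((2 * (i : ℝ) + 1) * (2 * ((m - i : ℕ) : ℝ) + 1)) * (U w i * U w (m - i)) else 0 := by
      refine Finset.sum_nonneg fun i hi => ?_
      have hi' := Finset.mem_range.1 hi
      split_ifs with h
      · have := ih i (by omega)
        have := ih (m - i) (by omega)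
        positivity
      · exact le_rfl
    positivity
  exact nonneg_of_mul_nonneg_right h3 (by positivity)

/-- the sum over the convolution with a factor depending on the minimum -/
theorem sum_min_le {ψ : ℕ → ℝ} (hψ : ∀ s, 0 ≤ ψ s) (m : ℕ) :
    ∑ i ∈ range (m + 1), ψ (min i (m - i)) ≤ 2 * ∑ s ∈ range (m + 1), ψ s := by
  have h1 : ∑ i ∈ range (m + 1), ψ (min i (m - i)) ≤ ∑ i ∈ range (m + 1), (ψ i + ψ (m - i)) := by
    refine Finset.sum_le_sum fun i _ => ?_
    rcases le_total i (m - i) with h | h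
    · rw [min_eq_left h]
      have := hψ (m - i)
      linarith
    · rw [min_eq_right h]
      have := hψ i
      linarith
  refine h1.trans (le_of_eq ?_)
  rw [Finset.sum_add_distrib, two_mul]
  congr 1
  exact Finset.sum_range_reflect ψ (m + 1) ▸ Finset.sum_congr rfl fun i _ => by
    congr 1

/-- key step: exponential moment of the free steps -/
theorem moment {v v' : ℕ → ℝ} {m0 n : ℕ} {c B Wb Cd k S lam : ℝ}
    (hv : ∀ m, m < m0 → v' m = v m) (hv0 : ∀ m, 0 ≤ v' m)
    (hvc : ∀ m, m0 ≤ m → v' m ≤ v m - c) (hc : 0 < c)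
    (hq : ∀ m, 0 < U v m)
    (hB : ∀ m, m0 ≤ m → m ≤ n → U v (m + 1) ≤ B * U v m)
    (hW : ∀ m, m0 ≤ m → m ≤ n → v m ≤ Wb) (hCd : 0 ≤ Cd)
    (hED : ∀ m i, m0 ≤ m → m ≤ n → 2 * i ≤ m →
      U v i * U v (m - i) ≤ Cd * Real.exp (-(k * i)) * U v m)
    (hl0 : 0 < lam) (hl1 : lam ≤ 1)
    (hS : ∀ M : ℕ, ∑ s ∈ range M, (2 * (s : ℝ) + 1) * ((s + 2) * (1 + lam) ^ (s + 2)
      * Real.exp (-(k * s))) ≤ S)
    (hlam : lam * (12 * B + 3 * Wb + 6 * Cd * S) ≤ c) (m : ℕ) (hm : m ≤ n + 2) :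
    U v' m * (1 + lam) ^ (m - (m0 + 1)) ≤ U v m := by
  revert hm
  refine U_ind v' (fun m u => m ≤ n + 2 → u * (1 + lam) ^ (m - (m0 + 1)) ≤ U v m)
    (fun _ => ?_) (fun _ => ?_) (fun m ih hm => ?_) m
  · rw [U_zero, Nat.zero_sub, pow_zero, mul_one]
  · rw [U_one, show 1 - (m0 + 1) = 0 by omega, pow_zero, mul_one]
  rcases lt_or_ge m m0 with hmm | hmm
  · -- no change below the threshold
    have h1 : U v' (m + 2) = U v (m + 2) := U_congr fun j hj => hv j (by omega)
    rw [h1, show m + 2 - (m0 + 1) = 0 by omega, pow_zero, mul_one]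
  have hmn : m ≤ n := by omega
  set L : ℝ := 1 + lam with hL
  have hL1 : 1 ≤ L := by linarith
  have hL0 : 0 < L := by linarith
  have hE : m + 2 - (m0 + 1) = m + 1 - m0 := by omega
  have hG0 : ∀ i, 0 ≤ U v' i := fun i => U_nonneg hv0 i
  -- (i)
  have t1 : U v' (m + 1) * L ^ (m + 2 - (m0 + 1)) ≤ U v (m + 1) + lam * (B * U v m) := by
    have h1 := ih (m + 1) (by omega) (by omega)
    have h2 : L ^ (m + 2 - (m0 + 1)) = L ^ (m + 1 - (m0 + 1)) * L := by
      rw [← pow_succ]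
      congr 1
      omega
    rw [h2, ← mul_assoc]
    have h3 := mul_le_mul_of_nonneg_right h1 hL0.le
    have h4 := mul_le_mul_of_nonneg_left (hB m hmm hmn) hl0.le
    have h5 : U v (m + 1) * L = U v (m + 1) + lam * U v (m + 1) := by rw [hL]; ring
    linarith
  -- (ii)
  have t2 : v' m * U v' m * L ^ (m + 2 - (m0 + 1)) ≤ v m * U v m + (3 * lam * Wb - c) * U v m := by
    have h1 := ih m (by omega) (by omega)
    have h2 : L ^ (m + 2 - (m0 + 1)) ≤ L ^ (m - (m0 + 1)) * L ^ 2 := by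
      rw [← pow_add]
      exact pow_le_pow_right₀ hL1 (by omega)
    have h3 : U v' m * L ^ (m + 2 - (m0 + 1)) ≤ U v m * L ^ 2 := by
      calc U v' m * L ^ (m + 2 - (m0 + 1)) ≤ U v' m * (L ^ (m - (m0 + 1)) * L ^ 2) :=
            mul_le_mul_of_nonneg_left h2 (hG0 m)
        _ = (U v' m * L ^ (m - (m0 + 1))) * L ^ 2 := by ring
        _ ≤ U v m * L ^ 2 := mul_le_mul_of_nonneg_right h1 (by positivity)
    have h4 := hvc m hmm
    have h5 := hv0 m
    have h6 := hW m hmm hmn
    have hqm := hq m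
    calc v' m * U v' m * L ^ (m + 2 - (m0 + 1)) = v' m * (U v' m * L ^ (m + 2 - (m0 + 1))) := by ring
      _ ≤ v' m * (U v m * L ^ 2) := mul_le_mul_of_nonneg_left h3 h5
      _ ≤ (v m - c) * (U v m * L ^ 2) := mul_le_mul_of_nonneg_right h4 (by positivity)
      _ = ((v m - c) * L ^ 2) * U v m := by ring
      _ ≤ (v m + (3 * lam * Wb - c)) * U v m := by
          refine mul_le_mul_of_nonneg_right ?_ hqm.le
          have h7 : L ^ 2 = 1 + lam * (2 + lam) := by rw [hL]; ring
          have h8 : lam * (2 + lam) ≤ 3 * lam := by nlinarith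
          have h9 : 0 ≤ lam * (2 + lam) := by positivity
          have h10 : 0 ≤ v m := by linarith
          rw [h7]
          nlinarith [mul_le_mul h6 h8 h9 (h10.trans h6), mul_nonneg hc.le h9]
      _ = _ := by ring
  -- (iii)
  set ψ : ℕ → ℝ := fun s => (2 * (s : ℝ) + 1) * ((s + 2) * L ^ (s + 2) * Real.exp (-(k * s))) with hψ
  have hψ0 : ∀ s, 0 ≤ ψ s := fun s => by
    rw [hψ]
    positivity
  have hqm := hq m
  have t3 : (∑ i ∈ range (m + 1), if 1 ≤ i ∧ i < m then
          ((2 * (i : ℝ) + 1) * (2 * ((m - i : ℕ) : ℝ) + 1)) * (U v' i * U v' (m - i)) else 0)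
        * L ^ (m + 2 - (m0 + 1))
      ≤ (∑ i ∈ range (m + 1), if 1 ≤ i ∧ i < m then
          ((2 * (i : ℝ) + 1) * (2 * ((m - i : ℕ) : ℝ) + 1)) * (U v i * U v (m - i)) else 0)
        + (2 * m + 1) * (lam * (2 * Cd * S)) * U v m := by
    rw [Finset.sum_mul]
    have h1 : ∀ i ∈ range (m + 1), (if 1 ≤ i ∧ i < m then
          ((2 * (i : ℝ) + 1) * (2 * ((m - i : ℕ) : ℝ) + 1)) * (U v' i * U v' (m - i)) else 0)
          * L ^ (m + 2 - (m0 + 1))
        ≤ (if 1 ≤ i ∧ i < m then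
          ((2 * (i : ℝ) + 1) * (2 * ((m - i : ℕ) : ℝ) + 1)) * (U v i * U v (m - i)) else 0)
          + (2 * m + 1) * lam * Cd * U v m * ψ (min i (m - i)) := by
      intro i hi
      have hi' := Finset.mem_range.1 hi
      have hextra : 0 ≤ (2 * (m : ℝ) + 1) * lam * Cd * U v m * ψ (min i (m - i)) := by
        have := hψ0 (min i (m - i))
        positivity
      split_ifs with h
      · have ih1 := ih i (by omega) (by omega)
        have ih2 := ih (m - i) (by omega) (by omega)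
        set s := min i (m - i) with hs
        have hprod : U v' i * U v' (m - i) * L ^ (m + 2 - (m0 + 1))
            ≤ U v i * U v (m - i) * L ^ (s + 2) := by
          have h2 : L ^ (m + 2 - (m0 + 1))
              ≤ L ^ (i - (m0 + 1)) * L ^ (m - i - (m0 + 1)) * L ^ (s + 2) := by
            rw [← pow_add, ← pow_add]
            refine pow_le_pow_right₀ hL1 ?_
            rcases le_total i (m - i) with h3 | h3
            · rw [hs, min_eq_left h3]
              omega
            · rw [hs, min_eq_right h3]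
              omega
          calc U v' i * U v' (m - i) * L ^ (m + 2 - (m0 + 1))
              ≤ U v' i * U v' (m - i)
                * (L ^ (i - (m0 + 1)) * L ^ (m - i - (m0 + 1)) * L ^ (s + 2)) :=
                mul_le_mul_of_nonneg_left h2 (mul_nonneg (hG0 _) (hG0 _))
            _ = (U v' i * L ^ (i - (m0 + 1))) * (U v' (m - i) * L ^ (m - i - (m0 + 1)))
                * L ^ (s + 2) := by ring
            _ ≤ U v i * U v (m - i) * L ^ (s + 2) := by
                refine mul_le_mul_of_nonneg_right ?_ (by positivity)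
                exact mul_le_mul ih1 ih2 (mul_nonneg (hG0 _) (by positivity)) (hq i).le
        have hL2 : L ^ (s + 2) ≤ 1 + lam * ((s + 2 : ℕ) : ℝ) * L ^ (s + 2) :=
          one_add_pow_sub_one_le hl0.le (s + 2)
        have hED' : U v i * U v (m - i) ≤ Cd * Real.exp (-(k * s)) * U v m := by
          rcases le_total i (m - i) with h3 | h3
          · rw [hs, min_eq_left h3]
            exact hED m i hmm hmn (by omega)
          · rw [hs, min_eq_right h3]
            have h4 := hED m (m - i) hmm hmn (by omega)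
            rw [show m - (m - i) = i by omega] at h4
            rw [mul_comm (U v i)]
            exact h4
        have hcoef : (2 * (i : ℝ) + 1) * (2 * ((m - i : ℕ) : ℝ) + 1)
            ≤ (2 * (m : ℝ) + 1) * (2 * (s : ℝ) + 1) := by
          have h4 : (i : ℝ) ≤ m := by exact_mod_cast (by omega : i ≤ m)
          have h5 : ((m - i : ℕ) : ℝ) ≤ m := by exact_mod_cast (by omega : m - i ≤ m)
          rcases le_total i (m - i) with h3 | h3
          · rw [hs, min_eq_left h3, mul_comm]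
            refine mul_le_mul_of_nonneg_right (by linarith) (by positivity)
          · rw [hs, min_eq_right h3]
            refine mul_le_mul_of_nonneg_right (by linarith) (by positivity)
        have hUU : 0 ≤ U v i * U v (m - i) := mul_nonneg (hq _).le (hq _).le
        have hfin : U v' i * U v' (m - i) * L ^ (m + 2 - (m0 + 1))
            ≤ U v i * U v (m - i)
              + lam * ((s : ℝ) + 2) * L ^ (s + 2) * (Cd * Real.exp (-(k * s)) * U v m) := by
          refine hprod.trans ?_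
          have e1 := mul_le_mul_of_nonneg_left hL2 hUU
          have e2 : 0 ≤ lam * ((s : ℝ) + 2) * L ^ (s + 2) := by positivity
          have e3 := mul_le_mul_of_nonneg_left hED' e2
          push_cast at e1
          nlinarith
        have hK : 0 ≤ (2 * (i : ℝ) + 1) * (2 * ((m - i : ℕ) : ℝ) + 1) := by positivity
        calc ((2 * (i : ℝ) + 1) * (2 * ((m - i : ℕ) : ℝ) + 1)) * (U v' i * U v' (m - i))
              * L ^ (m + 2 - (m0 + 1))
            = ((2 * (i : ℝ) + 1) * (2 * ((m - i : ℕ) : ℝ) + 1))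
              * (U v' i * U v' (m - i) * L ^ (m + 2 - (m0 + 1))) := by ring
          _ ≤ ((2 * (i : ℝ) + 1) * (2 * ((m - i : ℕ) : ℝ) + 1)) * (U v i * U v (m - i)
              + lam * ((s : ℝ) + 2) * L ^ (s + 2) * (Cd * Real.exp (-(k * s)) * U v m)) :=
              mul_le_mul_of_nonneg_left hfin hK
          _ = ((2 * (i : ℝ) + 1) * (2 * ((m - i : ℕ) : ℝ) + 1)) * (U v i * U v (m - i))
              + ((2 * (i : ℝ) + 1) * (2 * ((m - i : ℕ) : ℝ) + 1))
                * (lam * ((s : ℝ) + 2) * L ^ (s + 2) * (Cd * Real.exp (-(k * s)) * U v m)) := by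
              ring
          _ ≤ ((2 * (i : ℝ) + 1) * (2 * ((m - i : ℕ) : ℝ) + 1)) * (U v i * U v (m - i))
              + ((2 * (m : ℝ) + 1) * (2 * (s : ℝ) + 1))
                * (lam * ((s : ℝ) + 2) * L ^ (s + 2) * (Cd * Real.exp (-(k * s)) * U v m)) := by
              gcongr
          _ = _ := by
              rw [hψ]
              ring
      · rw [zero_mul, zero_add]
        exact hextra
    refine (Finset.sum_le_sum h1).trans ?_
    rw [Finset.sum_add_distrib, ← Finset.mul_sum]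
    refine add_le_add le_rfl ?_
    have h2 := (sum_min_le hψ0 m).trans (mul_le_mul_of_nonneg_left (hS (m + 1)) zero_le_two)
    have h3 : 0 ≤ (2 * (m : ℝ) + 1) * lam * Cd * U v m := by positivity
    calc (2 * (m : ℝ) + 1) * lam * Cd * U v m * ∑ i ∈ range (m + 1), ψ (min i (m - i))
        ≤ (2 * (m : ℝ) + 1) * lam * Cd * U v m * (2 * S) := mul_le_mul_of_nonneg_left h2 h3
      _ = _ := by ring
  -- conclusion
  have hrec := U_real_rec v' m
  have hrec2 := U_real_rec v m
  have hm3 : (0 : ℝ) < (m : ℝ) + 3 := by positivity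
  refine le_of_mul_le_mul_left ?_ hm3
  rw [← mul_assoc, hrec, add_mul, add_mul]
  rw [hrec2]
  have hm0 : (0 : ℝ) ≤ m := by positivity
  have u1 : 4 * (2 * (m : ℝ) + 3) * U v' (m + 1) * L ^ (m + 2 - (m0 + 1))
      ≤ 4 * (2 * (m : ℝ) + 3) * U v (m + 1) + (2 * m + 1) * (12 * lam * B) * U v m := by
    have hBm : 0 ≤ B * U v m := (hq (m + 1)).le.trans (hB m hmm hmn)
    have e1 := mul_le_mul_of_nonneg_left t1 (by positivity : 0 ≤ 4 * (2 * (m : ℝ) + 3))
    have e2 : 4 * (2 * (m : ℝ) + 3) * (lam * (B * U v m))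
        ≤ (2 * m + 1) * (12 * lam * B) * U v m := by
      have : 0 ≤ lam * (B * U v m) := mul_nonneg hl0.le hBm
      nlinarith
    calc _ = 4 * (2 * (m : ℝ) + 3) * (U v' (m + 1) * L ^ (m + 2 - (m0 + 1))) := by ring
      _ ≤ _ := e1
      _ = 4 * (2 * (m : ℝ) + 3) * U v (m + 1) + 4 * (2 * (m : ℝ) + 3) * (lam * (B * U v m)) := by ring
      _ ≤ _ := by linarith
  have u2 : (2 * (m : ℝ) + 1) * (v' m * U v' m) * L ^ (m + 2 - (m0 + 1))
      ≤ (2 * (m : ℝ) + 1) * (v m * U v m) + (2 * m + 1) * (3 * lam * Wb - c) * U v m := by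
    have e1 := mul_le_mul_of_nonneg_left t2 (by positivity : 0 ≤ 2 * (m : ℝ) + 1)
    calc _ = (2 * (m : ℝ) + 1) * (v' m * U v' m * L ^ (m + 2 - (m0 + 1))) := by ring
      _ ≤ _ := e1
      _ = _ := by ring
  have u3 := mul_le_mul_of_nonneg_left t3 (by norm_num : (0 : ℝ) ≤ 3)
  have hfinal : (2 * (m : ℝ) + 1) * (12 * lam * B) * U v m
      + (2 * m + 1) * (3 * lam * Wb - c) * U v m
      + 3 * ((2 * m + 1) * (lam * (2 * Cd * S)) * U v m) ≤ 0 := by
    have e1 : (2 * (m : ℝ) + 1) * (12 * lam * B) * U v m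
      + (2 * m + 1) * (3 * lam * Wb - c) * U v m
      + 3 * ((2 * m + 1) * (lam * (2 * Cd * S)) * U v m)
      = (2 * (m : ℝ) + 1) * U v m * (lam * (12 * B + 3 * Wb + 6 * Cd * S) - c) := by ring
    rw [e1]
    exact mul_nonpos_of_nonneg_of_nonpos (by positivity) (by linarith)
  linarith

/-! ### choice of the parameters -/

theorem exists_S {k : ℝ} (hk : 0 < k) : ∃ S : ℝ, 0 ≤ S ∧ ∀ lam : ℝ, 0 < lam →
    1 + lam ≤ Real.exp (k / 2) → ∀ M : ℕ, ∑ s ∈ range M, (2 * (s : ℝ) + 1) * ((s + 2)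
      * (1 + lam) ^ (s + 2) * Real.exp (-(k * s))) ≤ S := by
  set r : ℝ := Real.exp (-(k / 2)) with hr
  have hr0 : 0 < r := Real.exp_pos _
  have hr1 : ‖r‖ < 1 := by
    rw [Real.norm_of_nonneg hr0.le, hr, Real.exp_lt_one_iff]
    linarith
  have h2 := summable_pow_mul_geometric_of_norm_lt_one 2 hr1
  have h1 := summable_pow_mul_geometric_of_norm_lt_one 1 hr1
  have h0 := summable_geometric_of_norm_lt_one hr1
  have hsum : Summable fun s : ℕ => Real.exp k * ((2 * (s : ℝ) + 1) * (s + 2) * r ^ s) := by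
    refine Summable.mul_left _ ?_
    have := ((h2.mul_left 2).add (h1.mul_left 5)).add (h0.mul_left 2)
    refine this.congr fun s => ?_
    rw [pow_one]
    ring
  refine ⟨∑' s : ℕ, Real.exp k * ((2 * (s : ℝ) + 1) * (s + 2) * r ^ s),
    tsum_nonneg fun s => by positivity, fun lam hl hlk M => ?_⟩
  refine (Finset.sum_le_sum fun s _ => ?_).trans
    (hsum.sum_le_tsum (range M) fun s _ => by positivity)
  have e1 : (1 + lam) ^ (s + 2) ≤ Real.exp (k / 2) ^ (s + 2) :=
    pow_le_pow_left₀ (by linarith) hlk _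
  have e2 : Real.exp (k / 2) ^ (s + 2) * Real.exp (-(k * s)) = Real.exp k * r ^ s := by
    rw [hr, ← Real.exp_nat_mul, ← Real.exp_nat_mul, ← Real.exp_add, ← Real.exp_add]
    congr 1
    push_cast
    ring
  calc (2 * (s : ℝ) + 1) * ((s + 2) * (1 + lam) ^ (s + 2) * Real.exp (-(k * s)))
      ≤ (2 * (s : ℝ) + 1) * ((s + 2) * Real.exp (k / 2) ^ (s + 2) * Real.exp (-(k * s))) := by
        gcongr
    _ = (2 * (s : ℝ) + 1) * ((s + 2) * (Real.exp (k / 2) ^ (s + 2) * Real.exp (-(k * s)))) := by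
        ring
    _ = _ := by
        rw [e2]
        ring

theorem eval_wX_nonneg {z : ℝ} (hz : 0 ≤ z) (m : ℕ) : 0 ≤ (wX m).eval z := by
  unfold wX
  split_ifs
  · rw [eval_add, eval_mul, eval_C, eval_X]
    positivity
  · rw [eval_add, eval_mul, eval_C, eval_C, eval_X]
    positivity

theorem U_pos {w : ℕ → ℝ} (hw : ∀ m, 0 ≤ w m) (n : ℕ) : 0 < U w n := by
  refine U_ind w (fun _ u => 0 < u) zero_lt_one zero_lt_two (fun m ih => ?_) n
  have h := U_real_rec w m
  have h3 : 0 < ((m : ℝ) + 3) * U w (m + 2) := by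
    rw [h]
    have h1 := ih (m + 1) (by omega)
    have h2 := ih m (by omega)
    have h4 := hw m
    have h5 : 0 ≤ ∑ i ∈ range (m + 1), if 1 ≤ i ∧ i < m then
          ((2 * (i : ℝ) + 1) * (2 * ((m - i : ℕ) : ℝ) + 1)) * (U w i * U w (m - i)) else 0 := by
      refine Finset.sum_nonneg fun i hi => ?_
      have hi' := Finset.mem_range.1 hi
      split_ifs with h
      · have := ih i (by omega)
        have := ih (m - i) (by omega)
        positivity
      · exact le_rfl
    positivity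
  exact (mul_pos_iff_of_pos_left (by positivity)).1 h3

theorem Qp_eval_pos' (z : ℝ) (hz : 0 ≤ z) (n : ℕ) : 0 < (Qp n).eval z := by
  rw [eval_Qp_eq_U]
  exact U_pos (eval_wX_nonneg hz) n

end Pool.Agent.H36.Quad
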