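import Pool.Agent.H36.Quad.B4
import Pool.Agent.H63.Quad.BPlan

set_option autoImplicit false

/-!
# Module B4, interface form
-/

namespace Pool.Agent.H36.Quad

open Finset Filter Topology Polynomial Pool.Agent.H63.Quad

/-- the bivariate polynomials -/
noncomputable def UU (n : ℕ) : ℝ[X][X] := BF (((n / 2 : ℕ) : ℝ) ^ 2) (n / 2) n

theorem UU_nonneg (n a b : ℕ) : 0 ≤ ((UU n).coeff a).coeff b := by
  refine (nn_BF ?_ n a b).1
  have : (0 : ℝ) ≤ ((n / 2 : ℕ) : ℝ) := by positivity
  nlinarith

theorem UU_eval (n : ℕ) :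
    (UU n).eval (C 6 + C (((n / 2 : ℕ) : ℝ) ^ 2) * X) = Qp n := by
  rcases Nat.eq_zero_or_pos (n / 2) with h | h
  · have hn : n < 2 := by omega
    interval_cases n
    · simp [UU, BF, U, Qp]
    · simp [UU, BF, U, Qp]
  · exact eval_BF _ h n

/-- decay of the products `y_i y_(m-i)` -/
theorem yN_prod_le {N m i J : ℕ} {ρ : ℝ} (hN : 1 ≤ N) (hi : 2 * i ≤ m)
    (h : ∀ j, j < J → j + 1 ≤ i → aN N (m - j - 1) ≤ ρ * aN N j) :
    ∀ j, j ≤ i → yN N j * yN N (m - j) ≤ ρ ^ (min j J) * yN N m := by
  intro j
  induction j with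
  | zero =>
      intro _
      rw [yN_zero, Nat.zero_min, pow_zero, Nat.sub_zero]
  | succ j ih =>
      intro hj
      have ih' := ih (by omega)
      have h1 : yN N (j + 1) = yN N j / aN N j := by
        rw [yN_succ N j, mul_comm, mul_div_assoc, div_self (aN_pos N j).ne', mul_one]
      have h2 : yN N (m - (j + 1)) = aN N (m - j - 1) * yN N (m - j) := by
        rw [show m - (j + 1) = m - j - 1 by omega, yN_succ N (m - j - 1),
          show m - j - 1 + 1 = m - j by omega]
      have h3 : yN N (j + 1) * yN N (m - (j + 1))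
          = (yN N j * yN N (m - j)) * (aN N (m - j - 1) / aN N j) := by
        rw [h1, h2]
        ring
      have hpos : 0 ≤ yN N j * yN N (m - j) := mul_nonneg (yN_pos _ _).le (yN_pos _ _).le
      have haj := aN_pos N j
      have haj' := aN_pos N (m - j - 1)
      rw [h3]
      rcases lt_or_ge j J with hJ | hJ
      · have h4 : aN N (m - j - 1) / aN N j ≤ ρ := by
          rw [div_le_iff₀ haj]
          exact h j hJ hj
        rw [show min (j + 1) J = min j J + 1 by omega, pow_succ]
        calc (yN N j * yN N (m - j)) * (aN N (m - j - 1) / aN N j)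
            ≤ (ρ ^ min j J * yN N m) * ρ :=
              mul_le_mul ih' h4 (by positivity) (hpos.trans ih')
          _ = _ := by ring
      · have h4 : aN N (m - j - 1) / aN N j ≤ 1 := by
          rw [div_le_one haj]
          exact aN_antitone N hN (by omega)
        rw [show min (j + 1) J = min j J by omega]
        calc (yN N j * yN N (m - j)) * (aN N (m - j - 1) / aN N j)
            ≤ (yN N j * yN N (m - j)) * 1 := mul_le_mul_of_nonneg_left h4 hpos
          _ ≤ _ := by rw [mul_one]; exact ih'

theorem free_UU (hED : ED) (hLB : LB) : Free UU where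
  nonneg := UU_nonneg
  eval_eq := UU_eval
  decay := by
    intro t1 t2 s ht1 ht12 hs0 hs1
    have ht2 : 0 < t2 := ht1.trans ht12
    obtain ⟨ρ, hρ0, hρ1, l, hl0, hED'⟩ := hED (t1 / 8) (by positivity)
    obtain ⟨cB, hcB, hLB'⟩ := hLB t2 ht2
    set lr : ℝ := -Real.log ρ with hlr
    have hlr0 : 0 < lr := by
      have := Real.log_neg hρ0 hρ1
      linarith
    set k : ℝ := min 1 (l / t2) * lr with hk
    have hk0 : 0 < k := mul_pos (lt_min one_pos (by positivity)) hlr0
    obtain ⟨S, hS0, hS⟩ := exists_S hk0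
    set B : ℝ := 1 / cB with hB
    set Wb : ℝ := 6 + 10 * t2 ^ 2 with hWb
    set c : ℝ := 6 * (1 - s) with hc
    have hc0 : 0 < c := by rw [hc]; linarith
    set Dn : ℝ := 12 * B + 3 * Wb + 6 * 1 * S with hDn
    have hDn0 : 0 < Dn := by positivity
    set lam : ℝ := min 1 (min (Real.exp (k / 2) - 1) (c / Dn)) with hlam
    have hek : 0 < Real.exp (k / 2) - 1 := by
      have := Real.add_one_lt_exp (x := k / 2) (by positivity)
      linarith
    have hlm0 : 0 < lam := lt_min one_pos (lt_min hek (by positivity))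
    have hl1 : lam ≤ 1 := min_le_left _ _
    have hl2 : 1 + lam ≤ Real.exp (k / 2) := by
      have : lam ≤ Real.exp (k / 2) - 1 := (min_le_right _ _).trans (min_le_left _ _)
      linarith
    have hl3 : lam * Dn ≤ c := by
      have : lam ≤ c / Dn := (min_le_right _ _).trans (min_le_right _ _)
      rwa [le_div_iff₀ hDn0] at this
    set ll : ℝ := Real.log (1 + lam) with hll
    have hllpos : 0 < ll := Real.log_pos (by linarith)
    refine ⟨ll / 4, by positivity, ?_⟩
    have hev : ∀ᶠ N : ℕ in atTop, max 1 (4 / t1) ≤ (N : ℝ) :=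
      (tendsto_natCast_atTop_atTop (R := ℝ)).eventually_ge_atTop _
    filter_upwards [hED', hLB', hev] with N hEDN hLBN hNbig n hn1 hn2
    have hN1 : (1 : ℝ) ≤ N := (le_max_left _ _).trans hNbig
    have hN1' : 1 ≤ N := by exact_mod_cast hN1
    have hN0 : (0 : ℝ) < N := by linarith
    have ht1N : 4 ≤ t1 * N := by
      have := (le_max_right _ _).trans hNbig
      rw [div_le_iff₀ ht1] at this
      linarith
    have hn4 : (4 : ℝ) ≤ n := ht1N.trans hn1
    have hn4' : 4 ≤ n := by exact_mod_cast hn4
    have hn0 : (0 : ℝ) < n := by linarith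
    set z : ℝ := 1 / (N : ℝ) ^ 2 with hz
    have hz0 : 0 < z := by positivity
    set m0 : ℕ := n / 2 with hm0
    have hm0n : 2 * m0 ≤ n := by omega
    have hm0n' : n ≤ 2 * m0 + 1 := by omega
    have hm0r : (2 * m0 : ℝ) ≤ n := by exact_mod_cast hm0n
    have hm0r' : (n : ℝ) ≤ 2 * m0 + 1 := by exact_mod_cast hm0n'
    set x0 : ℝ := (m0 : ℝ) ^ 2 with hx0
    have hx00 : 0 ≤ x0 := by positivity
    have hUUe : ((UU n).eval (C (s * (6 + x0 * z)))).eval z
        = U (wy x0 m0 z (s * (6 + x0 * z))) n := eval_eval_BF _ _ _ _ _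
    rw [hUUe]
    set y : ℝ := s * (6 + x0 * z) with hy
    have hy0 : 0 ≤ y := by positivity
    have hyN : ∀ j, yN N j = U (fun m => (wX m).eval z) j := fun j => eval_Qp_eq_U z j
    have hv' : ∀ m, m0 ≤ m → (wX m).eval z = 6 + ((m : ℝ) + 1) * (2 * m + 3) * z := by
      intro m hm
      rw [wX, if_neg (by omega), eval_add, eval_mul, eval_C, eval_C, eval_X]
    have key : U (wy x0 m0 z y) n * (1 + lam) ^ (n - (m0 + 1))
        ≤ U (fun m => (wX m).eval z) n := by
      refine moment (v := fun m => (wX m).eval z) (v' := wy x0 m0 z y) (m0 := m0) (n := n) (c := c)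
        (B := B) (Wb := Wb) (Cd := 1) (k := k) (S := S) (lam := lam) ?_ ?_ ?_ hc0 ?_ ?_ ?_
        zero_le_one ?_ hlm0 hl1 (hS lam hlm0 hl2) hl3 n (by omega)
      · intro m hm
        rw [wy, if_pos hm]
      · intro m
        unfold wy
        split_ifs with h
        · exact eval_wX_nonneg hz0.le m
        · have e1 : (m0 : ℝ) ≤ m := by exact_mod_cast not_lt.1 h
          have e0 : (0 : ℝ) ≤ m0 := by positivity
          have e2 : 0 ≤ ((m : ℝ) + 1) * (2 * m + 3) - x0 := by
            rw [hx0]
            nlinarith only [e1, e0]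
          positivity
      · intro m hm
        show wy x0 m0 z y m ≤ (wX m).eval z - c
        rw [wy, if_neg (by omega), hv' m hm, hy, hc]
        have e1 : 0 ≤ (1 - s) * (x0 * z) := mul_nonneg (by linarith) (by positivity)
        linarith only [e1]
      · intro m
        exact U_pos (eval_wX_nonneg hz0.le) m
      · intro m hm hmn
        have e2 : (m : ℝ) ≤ t2 * N := by
          have : (m : ℝ) ≤ n := by exact_mod_cast hmn
          linarith
        have h1 := hLBN m e2
        rw [← hyN, ← hyN, yN_succ N m, hB]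
        have h2 := yN_pos N (m + 1)
        have h3 : 1 ≤ 1 / cB * aN N m := by
          rw [div_mul_eq_mul_div, one_mul, one_le_div hcB]
          exact h1
        calc yN N (m + 1) = 1 * yN N (m + 1) := (one_mul _).symm
          _ ≤ (1 / cB * aN N m) * yN N (m + 1) := mul_le_mul_of_nonneg_right h3 h2.le
          _ = _ := by ring
      · intro m hm hmn
        show (wX m).eval z ≤ Wb
        rw [hv' m hm, hWb]
        have e1 : (m : ℝ) ≤ n := by exact_mod_cast hmn
        have e0 : (0 : ℝ) ≤ m := by positivity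
        have e2 : ((m : ℝ) + 1) * (2 * m + 3) ≤ 10 * (n : ℝ) ^ 2 := by
          nlinarith only [e1, e0, hn4]
        have e3 := mul_le_mul_of_nonneg_right e2 hz0.le
        have e4 : (n : ℝ) ^ 2 * z ≤ t2 ^ 2 := by
          rw [hz, mul_one_div, div_le_iff₀ (by positivity)]
          calc (n : ℝ) ^ 2 ≤ (t2 * N) ^ 2 := pow_le_pow_left₀ hn0.le hn2 2
            _ = _ := by ring
        linarith only [e3, e4]
      · intro m i hm hmn hi
        rw [← hyN, ← hyN, ← hyN, one_mul]
        have e1 : (m : ℝ) ≤ n := by exact_mod_cast hmn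
        have e2 : (m0 : ℝ) ≤ m := by exact_mod_cast hm
        set J : ℕ := ⌊l * N⌋₊ + 1 with hJ
        have hJlo : l * N ≤ J := by
          rw [hJ]
          push_cast
          exact (Nat.lt_floor_add_one _).le
        have h1 := yN_prod_le (N := N) (m := m) (i := i) (J := J) (ρ := ρ) hN1' hi
          (fun j hj hji => by
            refine hEDN (m - j - 1) j ?_ ?_
            · have e3 : m ≤ 2 * (m - j - 1) := by omega
              have e4 : (m : ℝ) ≤ 2 * ((m - j - 1 : ℕ) : ℝ) := by exact_mod_cast e3
              linarith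
            · have e3 : j ≤ ⌊l * N⌋₊ := by omega
              have e4 : (j : ℝ) ≤ (⌊l * N⌋₊ : ℝ) := by exact_mod_cast e3
              exact e4.trans (Nat.floor_le (by positivity))) i le_rfl
        refine h1.trans (mul_le_mul_of_nonneg_right ?_ (yN_pos _ _).le)
        have h2 : ρ ^ min i J = Real.exp (-(lr * ((min i J : ℕ) : ℝ))) := by
          rw [hlr, show -(-Real.log ρ * ((min i J : ℕ) : ℝ)) = ((min i J : ℕ) : ℝ) * Real.log ρ by ring,
            Real.exp_nat_mul, Real.exp_log hρ0]
        rw [h2, Real.exp_le_exp, neg_le_neg_iff, hk]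
        have h3 : min 1 (l / t2) * (i : ℝ) ≤ ((min i J : ℕ) : ℝ) := by
          rcases le_total i J with h4 | h4
          · rw [min_eq_left h4]
            exact mul_le_of_le_one_left (by positivity) (min_le_left _ _)
          · rw [min_eq_right h4]
            have e5 : (i : ℝ) ≤ t2 * N := by
              have : (i : ℝ) ≤ m := by exact_mod_cast (by omega : i ≤ m)
              linarith
            calc min 1 (l / t2) * (i : ℝ) ≤ l / t2 * (t2 * N) :=
                  mul_le_mul (min_le_right _ _) e5 (by positivity) (by positivity)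
              _ = l * N := by field_simp
              _ ≤ J := hJlo
        calc min 1 (l / t2) * lr * (i : ℝ) = lr * (min 1 (l / t2) * i) := by ring
          _ ≤ _ := mul_le_mul_of_nonneg_left h3 hlr0.le
    rw [← hyN] at key
    have hLe : (1 + lam) ^ (n - (m0 + 1)) = Real.exp (ll * ((n - (m0 + 1) : ℕ) : ℝ)) := by
      rw [hll, mul_comm, Real.exp_nat_mul, Real.exp_log (by linarith)]
    have hcast : ((n - (m0 + 1) : ℕ) : ℝ) = n - (m0 + 1) := by
      rw [Nat.cast_sub (by omega)]
      push_cast
      ring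
    have hbig : Real.exp (ll / 4 * n) ≤ (1 + lam) ^ (n - (m0 + 1)) := by
      rw [hLe, hcast, Real.exp_le_exp]
      have h4 : (n : ℝ) / 4 ≤ n - (m0 + 1) := by linarith
      have h5 := mul_le_mul_of_nonneg_left h4 hllpos.le
      linarith
    have hG : 0 ≤ U (wy x0 m0 z y) n := by
      refine U_nonneg (fun m => ?_) n
      unfold wy
      split_ifs with h
      · exact eval_wX_nonneg hz0.le m
      · have e1 : (m0 : ℝ) ≤ m := by exact_mod_cast not_lt.1 h
        have e0 : (0 : ℝ) ≤ m0 := by positivity
        have e2 : 0 ≤ ((m : ℝ) + 1) * (2 * m + 3) - x0 := by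
          rw [hx0]
          nlinarith only [e1, e0]
        positivity
    have hfin : U (wy x0 m0 z y) n * Real.exp (ll / 4 * n) ≤ yN N n :=
      (mul_le_mul_of_nonneg_left hbig hG).trans key
    have hE : Real.exp (-(ll / 4) * n) * Real.exp (ll / 4 * n) = 1 := by
      rw [← Real.exp_add]
      simp
    have hEpos := Real.exp_pos (-(ll / 4) * (n : ℝ))
    calc U (wy x0 m0 z y) n = Real.exp (-(ll / 4) * n) * (U (wy x0 m0 z y) n
          * Real.exp (ll / 4 * n)) := by
          rw [mul_comm _ (Real.exp (ll / 4 * n)), ← mul_assoc, hE, one_mul]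
      _ ≤ _ := mul_le_mul_of_nonneg_left hfin hEpos.le

end Pool.Agent.H36.Quad
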